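import Pool.Agent.H23.LB.Targets
import Pool.Agent.H28.RC.WP
import Pool.Agent.H66.HK.FD

/-!
# Board gla_modules, module MQ: the mean square in a strip
-/

set_option autoImplicit false

open NumberField NumberField.InfinitePlace NumberField.Units
  NumberField.Units.dirichletUnitTheorem MeasureTheory Set Filter Complex
open scoped nonZeroDivisors ENNReal

namespace Pool.Agent.H68.GLA

open Pool.Agent.H25.HK Pool.Agent.H23.LB
open Pool.Agent.H28.RC hiding cf gS T_H1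

lemma ang (t : ℝ) : ∃ φ : ℝ, |φ| < Real.pi / 2 ∧
    2 / Real.pi * (1 / (1 + |t|)) ≤ Real.cos φ ∧ Real.pi * |t| / 2 - 1 ≤ φ * t := by
  have h1 : 0 < 1 + |t| := by positivity
  have h2 : 1 / (1 + |t|) ≤ 1 := by rw [div_le_one h1]; linarith [abs_nonneg t]
  have h3 : 0 < 1 / (1 + |t|) := by positivity
  have hpi := Real.pi_gt_three
  obtain ⟨a, ha⟩ : ∃ a : ℝ, a = Real.pi / 2 - 1 / (1 + |t|) := ⟨_, rfl⟩
  have ha0 : 0 < a := by rw [ha]; linarith
  have ha1 : a < Real.pi / 2 := by rw [ha]; linarith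
  have hc : 2 / Real.pi * (1 / (1 + |t|)) ≤ Real.cos a := by
    rw [ha, Real.cos_pi_div_two_sub]
    exact Real.mul_le_sin h3.le (by linarith)
  have hat : Real.pi * |t| / 2 - 1 ≤ a * |t| := by
    have h4 : 1 / (1 + |t|) * |t| ≤ 1 := by
      rw [div_mul_eq_mul_div, one_mul, div_le_one h1]; linarith
    rw [ha, sub_mul]
    linarith
  rcases le_or_gt 0 t with ht | ht
  · refine ⟨a, ?_, hc, ?_⟩
    · rw [abs_of_pos ha0]; exact ha1
    · rw [abs_of_nonneg ht] at hat ⊢; exact hat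
  · refine ⟨-a, ?_, ?_, ?_⟩
    · rw [abs_neg, abs_of_pos ha0]; exact ha1
    · rw [Real.cos_neg]; exact hc
    · rw [abs_of_neg ht] at hat ⊢
      linarith

section NF

variable {K : Type} [Field K] [NumberField K]

lemma rot (hPH : T_PH) {f : Ideal (𝓞 K)} (hf : f ≠ ⊥) (D : Sys K f) (χ : HC K f) {φ : ℝ}
    (hφ : |φ| < Real.pi / 2) {s : ℂ} (h0 : s ≠ 0) (h1 : s ≠ 1)
    (ht : Real.pi * |s.im| / 2 - 1 ≤ φ * s.im) :
    ‖Lam D χ 0 s‖ ≤ Real.exp ((Module.finrank ℚ K : ℝ) / 2) *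
      Real.exp (-(Real.pi * (Module.finrank ℚ K : ℝ) * |s.im| / 4)) * ‖Lam D χ φ s‖ := by
  have h := hPH K f hf D χ φ hφ s h0 h1
  have hn : ‖cexp (-(φ * (Module.finrank ℚ K * s) / 2) * I)‖ =
      Real.exp (φ * (Module.finrank ℚ K : ℝ) * s.im / 2) := by
    rw [Complex.norm_exp]
    congr 1
    have e : (-(φ * (Module.finrank ℚ K * s) / 2) * I : ℂ) =
        ((-(φ * (Module.finrank ℚ K : ℝ) / 2) : ℝ) : ℂ) * (s * I) := by push_cast; ring
    rw [e, Complex.re_ofReal_mul, Complex.mul_I_re]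
    ring
  rw [h, norm_mul, hn, ← mul_assoc]
  have h2 : 1 ≤ Real.exp ((Module.finrank ℚ K : ℝ) / 2) *
      Real.exp (-(Real.pi * (Module.finrank ℚ K : ℝ) * |s.im| / 4)) *
        Real.exp (φ * (Module.finrank ℚ K : ℝ) * s.im / 2) := by
    rw [← Real.exp_add, ← Real.exp_add]
    apply Real.one_le_exp
    have h3 : (0 : ℝ) ≤ (Module.finrank ℚ K : ℝ) := Nat.cast_nonneg _
    have h4 := mul_le_mul_of_nonneg_left ht h3
    nlinarith
  exact le_mul_of_one_le_left (norm_nonneg _) h2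

lemma ak_nonneg (hFP : T_FP) (M : FI K) (hM : M ≠ 0) (κ : ℝ) (z : logSpace K) :
    0 ≤ AK K κ M z := by
  unfold AK
  refine setIntegral_nonneg measurableSet_Ioi (fun T hT => ?_)
  have h := ((hFP K M hM).2.2.1 z T hT).1
  exact mul_nonneg (by linarith) (Real.rpow_nonneg (le_of_lt hT) _)

open scoped Classical in
lemma int_real (g : logSpace K → ℝ) (hg : Continuous g) : IntegrableOn g (Fd K) := by
  have h := cont_int Pool.Agent.H66.HK.fd (fun z => ((g z : ℝ) : ℂ))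
    (Complex.continuous_ofReal.comp hg)
  have h2 : Integrable (fun z => ((g z : ℝ) : ℂ).re) (volume.restrict (Fd K)) := h.re
  exact h2

lemma one_le_Nf {f : Ideal (𝓞 K)} (hf : f ≠ ⊥) : 1 ≤ Nf K f := by
  unfold Nf
  have : Ideal.absNorm f ≠ 0 := fun h => hf (Ideal.absNorm_eq_zero_iff.1 h)
  exact_mod_cast Nat.one_le_iff_ne_zero.2 this

lemma one_le_discr : (1 : ℝ) ≤ |(discr K : ℝ)| := by
  have : discr K ≠ 0 := discr_ne_zero K
  have h := Int.one_le_abs this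
  exact_mod_cast h

lemma one_le_dN {f : Ideal (𝓞 K)} (hf : f ≠ ⊥) : 1 ≤ dN K f := by
  unfold dN
  have h1 : 1 ≤ Real.sqrt |(discr K : ℝ)| := by
    rw [Real.one_le_sqrt]; exact one_le_discr
  exact one_le_mul_of_one_le_of_one_le h1 (one_le_Nf hf)

lemma dN_rpow {f : Ideal (𝓞 K)} (hf : f ≠ ⊥) (x : ℝ) :
    dN K f ^ x = |(discr K : ℝ)| ^ (x / 2) * Nf K f ^ x := by
  unfold dN
  rw [Real.mul_rpow (Real.sqrt_nonneg _) (by linarith [one_le_Nf hf]), Real.sqrt_eq_rpow,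
    ← Real.rpow_mul (abs_nonneg _)]
  congr 2
  ring

lemma cw_pos : 0 < cw K := by
  unfold cw
  have : 0 < torsionOrder K := torsionOrder_pos K
  positivity

lemma inv_cw_le : (cw K)⁻¹ ≤ 2 ^ (Module.finrank ℚ K) := by
  unfold cw
  have h1 : (1 : ℝ) ≤ torsionOrder K := by exact_mod_cast torsionOrder_pos K
  rw [mul_inv, inv_inv]
  have h2 : ((torsionOrder K : ℝ))⁻¹ ≤ 1 := inv_le_one_of_one_le₀ h1
  have h3 : (2 : ℝ) ^ (nrRealPlaces K + nrComplexPlaces K) ≤ 2 ^ (Module.finrank ℚ K) := by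
    apply pow_le_pow_right₀ (by norm_num)
    have := card_add_two_mul_card_eq_rank K
    omega
  calc ((torsionOrder K : ℝ))⁻¹ * 2 ^ (nrRealPlaces K + nrComplexPlaces K)
      ≤ 1 * 2 ^ (nrRealPlaces K + nrComplexPlaces K) := by gcongr
    _ ≤ _ := by rw [one_mul]; exact h3

open scoped Classical in
lemma card_RP : ((Fintype.card (Finset (RP K)) : ℕ) : ℝ) ≤ 2 ^ (Module.finrank ℚ K) := by
  rw [Fintype.card_finset]
  push_cast
  apply pow_le_pow_right₀ (by norm_num)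
  have h := card_add_two_mul_card_eq_rank K
  have h2 : Fintype.card (RP K) = nrRealPlaces K := rfl
  omega

lemma int_four {α : Type*} [MeasurableSpace α] {μ : Measure α} {g1 g2 g3 g4 : α → ℝ}
    (i1 : Integrable g1 μ) (i2 : Integrable g2 μ) (i3 : Integrable g3 μ) (i4 : Integrable g4 μ)
    {a b : ℝ} : ∫ z, (a * (g1 z + g2 z) + b * (g3 z + g4 z)) ∂μ =
      a * ((∫ z, g1 z ∂μ) + ∫ z, g2 z ∂μ) + b * ((∫ z, g3 z ∂μ) + ∫ z, g4 z ∂μ) := by
  have j1 : Integrable (fun z => a * (g1 z + g2 z)) μ := (i1.add i2).const_mul a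
  have j2 : Integrable (fun z => b * (g3 z + g4 z)) μ := (i3.add i4).const_mul b
  rw [integral_add j1 j2, integral_const_mul, integral_const_mul, integral_add i1 i2,
    integral_add i3 i4]

open scoped Classical in
/-- one class of ideals -/
lemma one_class (hFP : T_FP) (hAZ : T_AZ) {f : Ideal (𝓞 K)} (hf : f ≠ ⊥) {M : FI K} (hM : M ≠ 0)
    {X : Finset K} (hX : Rep K f M X) (S : Finset (RP K)) {φ : ℝ} (hφ : |φ| < Real.pi / 2)
    {s : ℂ} {κ : ℝ} (hκ : 0 < κ) {Q : ℝ} (hQ : ∀ z, ∑ r ∈ X, ‖EZ K S f M r φ z s‖ ^ 2 ≤ Q *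
      (Nf K f * (AK K κ ((f : FI K) * M) z + AK K κ (du K ((f : FI K) * M)) (-z)) +
        Nf K f ^ (1 + κ) * (AK K κ M z + AK K κ (du K M) (-z))))
    (hfM : (f : FI K) * M ≠ 0) (hd1 : du K ((f : FI K) * M) ≠ 0) (hd2 : du K M ≠ 0) :
    ∑ r ∈ X, ∫ z in Fd K, ‖EZ K S f M r φ z s‖ ^ 2 ≤ Q *
      (Nf K f * ((∫ z in Fd K, AK K κ ((f : FI K) * M) z) +
        ∫ z in Fd K, AK K κ (du K ((f : FI K) * M)) (-z)) +
        Nf K f ^ (1 + κ) * ((∫ z in Fd K, AK K κ M z) + ∫ z in Fd K, AK K κ (du K M) (-z))) := by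
  have hc : ∀ r ∈ X, Continuous (fun z => ‖EZ K S f M r φ z s‖ ^ 2) := by
    intro r hr
    have h := (hAZ K S f M r φ hf hM (hX.1 r hr) hφ).2.1 s
    unfold EZ
    exact (((h.sub continuous_const).sub continuous_const).norm).pow 2
  have c1 : Continuous (fun z => AK K κ ((f : FI K) * M) z) :=
    ((hFP K _ hfM).2.2.2.2.2 κ hκ).1
  have c2 : Continuous (fun z => AK K κ (du K ((f : FI K) * M)) (-z)) :=
    ((hFP K _ hd1).2.2.2.2.2 κ hκ).1.comp continuous_neg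
  have c3 : Continuous (fun z => AK K κ M z) := ((hFP K _ hM).2.2.2.2.2 κ hκ).1
  have c4 : Continuous (fun z => AK K κ (du K M) (-z)) :=
    ((hFP K _ hd2).2.2.2.2.2 κ hκ).1.comp continuous_neg
  have i1 := int_real _ c1
  have i2 := int_real _ c2
  have i3 := int_real _ c3
  have i4 := int_real _ c4
  rw [← integral_finsetSum _ (fun r hr => int_real _ (hc r hr))]
  have hG : Continuous (fun z => Q *
      (Nf K f * (AK K κ ((f : FI K) * M) z + AK K κ (du K ((f : FI K) * M)) (-z)) +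
        Nf K f ^ (1 + κ) * (AK K κ M z + AK K κ (du K M) (-z)))) :=
    continuous_const.mul ((continuous_const.mul (c1.add c2)).add
      (continuous_const.mul (c3.add c4)))
  have h1 : ∫ z in Fd K, ∑ r ∈ X, ‖EZ K S f M r φ z s‖ ^ 2 ≤ ∫ z in Fd K, Q *
      (Nf K f * (AK K κ ((f : FI K) * M) z + AK K κ (du K ((f : FI K) * M)) (-z)) +
        Nf K f ^ (1 + κ) * (AK K κ M z + AK K κ (du K M) (-z))) :=
    integral_mono (int_real _ (continuous_finsetSum _ hc)) (int_real _ hG) hQ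
  refine h1.trans (le_of_eq ?_)
  rw [integral_const_mul, int_four i1 i2 i3 i4]

end NF

open scoped Classical in
theorem mean (hBD : T_BD') (hA1 : T_A1) (hRR : T_RR) (hFP : T_FP) (hAZ : T_AZ) (n : ℕ)
    (hn : 0 < n) : ∃ B : ℝ, 0 ≤ B ∧ ∀ κ : ℝ, 0 < κ → κ ≤ 1 → ∃ C : ℝ, 0 ≤ C ∧
    ∀ (K : Type) [Field K] [NumberField K], Module.finrank ℚ K = n → ∀ (f : Ideal (𝓞 K)),
    f ≠ ⊥ → ∀ (D : Sys K f) (S : Finset (RP K)) (φ : ℝ), |φ| < Real.pi / 2 → ∀ s : ℂ,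
    |s.re - 1 / 2| ≤ κ / 8 →
    ∑ c, ∑ r ∈ D.X c, ∫ z in Fd K, ‖EZ K S f (D.M c) r φ z s‖ ^ 2 ≤
      C * Real.cos φ ^ (-B) * (cw K * dN K f ^ (1 + κ)) := by
  obtain ⟨B, hB⟩ := hBD n hn
  refine ⟨max B 0, le_max_right _ _, fun κ hκ hκ1 => ?_⟩
  obtain ⟨C, hC⟩ := hB κ hκ hκ1
  obtain ⟨C1, hC1⟩ := hA1 n κ hκ
  refine ⟨4 * max C 0 * max C1 0, by positivity, ?_⟩
  intro K _ _ hK f hf D S φ hφ s hs
  have hcos : 0 < Real.cos φ := by
    rw [abs_lt] at hφ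
    exact Real.cos_pos_of_mem_Ioo ⟨hφ.1, hφ.2⟩
  have hcp : 0 ≤ Real.cos φ ^ (-max B 0) := Real.rpow_nonneg hcos.le _
  obtain ⟨hR1, hR2, -⟩ := hRR K D.ι D.M D.reps
  have hRf := hR1 f hf
  obtain ⟨-, hRdf, -⟩ := hRR K D.ι _ hRf
  have hA : ∀ (M : D.ι → FI K), Reps K M →
      ∑ c, ∫ z in Fd K, AK K κ (M c) z ≤ max C1 0 * cw K * |(discr K : ℝ)| ^ ((1 + κ) / 2) ∧
      ∑ c, ∫ z in Fd K, AK K κ (M c) (-z) ≤
        max C1 0 * cw K * |(discr K : ℝ)| ^ ((1 + κ) / 2) := by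
    intro M hM
    obtain ⟨h1, h2⟩ := hC1 K hK D.ι M hM
    have h3 : C1 * cw K * |(discr K : ℝ)| ^ ((1 + κ) / 2) ≤
        max C1 0 * cw K * |(discr K : ℝ)| ^ ((1 + κ) / 2) := by
      have := cw_pos (K := K)
      gcongr
      exact le_max_left _ _
    exact ⟨h1.trans h3, h2.trans h3⟩
  have hone : ∀ c, ∑ r ∈ D.X c, ∫ z in Fd K, ‖EZ K S f (D.M c) r φ z s‖ ^ 2 ≤
      (max C 0 * Real.cos φ ^ (-max B 0)) *
      (Nf K f * ((∫ z in Fd K, AK K κ ((f : FI K) * D.M c) z) +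
        ∫ z in Fd K, AK K κ (du K ((f : FI K) * D.M c)) (-z)) +
        Nf K f ^ (1 + κ) * ((∫ z in Fd K, AK K κ (D.M c) z) +
          ∫ z in Fd K, AK K κ (du K (D.M c)) (-z))) := by
    intro c
    refine one_class hFP hAZ hf (D.reps.1 c) (D.rep c) S hφ hκ ?_ (hRf.1 c) (hRdf.1 c)
      (hR2.1 c)
    intro z
    refine (hC K hK S f (D.M c) (D.X c) φ hf (D.reps.1 c) (D.rep c) hφ z s hs).trans ?_
    have hG : 0 ≤ Nf K f * (AK K κ ((f : FI K) * D.M c) z +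
        AK K κ (du K ((f : FI K) * D.M c)) (-z)) +
        Nf K f ^ (1 + κ) * (AK K κ (D.M c) z + AK K κ (du K (D.M c)) (-z)) := by
      have h1 := ak_nonneg hFP _ (hRf.1 c) κ z
      have h2 := ak_nonneg hFP _ (hRdf.1 c) κ (-z)
      have h3 := ak_nonneg hFP _ (D.reps.1 c) κ z
      have h4 := ak_nonneg hFP _ (hR2.1 c) κ (-z)
      have h5 := one_le_Nf (K := K) hf
      positivity
    refine mul_le_mul_of_nonneg_right ?_ hG
    refine (mul_le_mul_of_nonneg_right (le_max_left C 0) (Real.rpow_nonneg hcos.le _)).trans ?_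
    refine mul_le_mul_of_nonneg_left ?_ (le_max_right _ _)
    exact Real.rpow_le_rpow_of_exponent_ge hcos (Real.cos_le_one _)
      (neg_le_neg (le_max_left B 0))
  have hsum := Finset.sum_le_sum (fun c (_ : c ∈ (Finset.univ : Finset D.ι)) => hone c)
  refine hsum.trans ?_
  rw [← Finset.mul_sum]
  have hN1 := one_le_Nf (K := K) hf
  have hN : Nf K f ≤ Nf K f ^ (1 + κ) := by
    calc Nf K f = Nf K f ^ (1 : ℝ) := (Real.rpow_one _).symm
      _ ≤ _ := Real.rpow_le_rpow_of_exponent_le hN1 (by linarith)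
  have hA0 : 0 ≤ max C1 0 * cw K * |(discr K : ℝ)| ^ ((1 + κ) / 2) := by
    have := cw_pos (K := K)
    positivity
  have hin : ∑ c, (Nf K f * ((∫ z in Fd K, AK K κ ((f : FI K) * D.M c) z) +
        ∫ z in Fd K, AK K κ (du K ((f : FI K) * D.M c)) (-z)) +
        Nf K f ^ (1 + κ) * ((∫ z in Fd K, AK K κ (D.M c) z) +
          ∫ z in Fd K, AK K κ (du K (D.M c)) (-z))) ≤
      4 * (Nf K f ^ (1 + κ) * (max C1 0 * cw K * |(discr K : ℝ)| ^ ((1 + κ) / 2))) := by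
    rw [Finset.sum_add_distrib, ← Finset.mul_sum, ← Finset.mul_sum, Finset.sum_add_distrib,
      Finset.sum_add_distrib]
    have h1 := (hA _ hRf).1
    have h2 := (hA _ hRdf).2
    have h3 := (hA _ D.reps).1
    have h4 := (hA _ hR2).2
    have e1 : Nf K f * ((∑ c, ∫ z in Fd K, AK K κ ((f : FI K) * D.M c) z) +
        ∑ c, ∫ z in Fd K, AK K κ (du K ((f : FI K) * D.M c)) (-z)) ≤
        Nf K f ^ (1 + κ) * (2 * (max C1 0 * cw K * |(discr K : ℝ)| ^ ((1 + κ) / 2))) := by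
      calc _ ≤ Nf K f * (2 * (max C1 0 * cw K * |(discr K : ℝ)| ^ ((1 + κ) / 2))) := by
            gcongr; linarith
        _ ≤ _ := by gcongr
    have e2 : Nf K f ^ (1 + κ) * ((∑ c, ∫ z in Fd K, AK K κ (D.M c) z) +
        ∑ c, ∫ z in Fd K, AK K κ (du K (D.M c)) (-z)) ≤
        Nf K f ^ (1 + κ) * (2 * (max C1 0 * cw K * |(discr K : ℝ)| ^ ((1 + κ) / 2))) := by
      gcongr; linarith
    linarith
  refine (mul_le_mul_of_nonneg_left hin (by positivity)).trans (le_of_eq ?_)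
  rw [dN_rpow hf]
  ring

open scoped Classical in
/-- one sign type -/
lemma one_type (hAZ : T_AZ) (hBE : T_BE) {K : Type} [Field K] [NumberField K]
    {f : Ideal (𝓞 K)} (hf : f ≠ ⊥) (D : Sys K f) (Y : Finset (HC K f)) (S : Finset (RP K))
    {φ : ℝ} (hφ : |φ| < Real.pi / 2) (s : ℂ) {Q : ℝ}
    (hQ : ∑ c, ∑ r ∈ D.X c, ∫ z in Fd K, ‖EZ K S f (D.M c) r φ z s‖ ^ 2 ≤ Q) :
    ∑ χ ∈ Y.filter (fun χ => χ.S = S), ‖Lam D χ φ s‖ ^ 2 ≤
      ((classNumber K : ℝ) * regulator K * Phi K f) * Q := by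
  have h := hBE K f hf D S (Y.filter (fun χ => χ.S = S))
    (fun χ hχ => (Finset.mem_filter.1 hχ).2) (fun c r z => EZ K S f (D.M c) r φ z s) (by
      intro c r hr
      have h := (hAZ K S f (D.M c) r φ hf (D.reps.1 c) ((D.rep c).1 r hr) hφ).2.1 s
      unfold EZ
      exact (h.sub continuous_const).sub continuous_const)
  have hV : 0 ≤ (classNumber K : ℝ) * regulator K * Phi K f := by
    have := (regulator_pos K).le
    positivity
  refine le_trans (le_of_eq ?_) (h.trans (mul_le_mul_of_nonneg_left hQ hV))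
  refine Finset.sum_congr rfl (fun χ hχ => ?_)
  rw [← (Finset.mem_filter.1 hχ).2]
  rfl

lemma cos_rpow {φ t B : ℝ} (hB : 0 ≤ B) (h : 2 / Real.pi * (1 / (1 + |t|)) ≤ Real.cos φ) :
    Real.cos φ ^ (-B) ≤ (Real.pi / 2) ^ B * (1 + |t|) ^ B := by
  have hpi := Real.pi_pos
  have h1 : 0 < 1 + |t| := by positivity
  have h0 : 0 < 2 / Real.pi * (1 / (1 + |t|)) := by positivity
  rw [← Real.mul_rpow (by positivity) h1.le]
  calc Real.cos φ ^ (-B) ≤ (2 / Real.pi * (1 / (1 + |t|))) ^ (-B) :=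
        Real.rpow_le_rpow_of_nonpos h0 h (by linarith)
    _ = (Real.pi / 2 * (1 + |t|)) ^ B := by
        rw [Real.rpow_neg h0.le, ← Real.inv_rpow h0.le]
        congr 1
        field_simp

open scoped Classical in
theorem pf_MQ (hBD : T_BD') (hA1 : T_A1) (hRR : T_RR) (hFP : T_FP) (hAZ : T_AZ)
    (hPH : T_PH) (hBE : T_BE) (hGL : T_GL) : T_MQ := by
  intro n hn R
  obtain ⟨B, hB0, hB⟩ := mean hBD hA1 hRR hFP hAZ n hn
  obtain ⟨G, c, hc, hG⟩ := hGL n R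
  refine ⟨2 * G + B, fun κ hκ hκ1 => ?_⟩
  obtain ⟨C, hC0, hC⟩ := hB κ hκ hκ1
  refine ⟨(Real.exp (n / 2) / c) ^ 2 * (2 ^ n * (C * (Real.pi / 2) ^ B) * 2 ^ n), ?_⟩
  intro K _ _ hK f hf D Y hY s hs
  obtain ⟨φ, hφ, hcos, hφt⟩ := ang s.im
  have habs := abs_le.1 hs
  have hre1 : 1 / 4 ≤ s.re := by linarith
  have hre2 : s.re ≤ 3 / 4 := by linarith
  have hs0 : s ≠ 0 := by
    rintro rfl
    rw [Complex.zero_re] at hre1
    linarith
  have hs1 : s ≠ 1 := by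
    rintro rfl
    rw [Complex.one_re] at hre2
    linarith
  have h1t : 0 < 1 + |s.im| := by positivity
  have hdN := one_le_dN (K := K) hf
  have hdN0 : 0 < dN K f := by linarith
  have hcw := cw_pos (K := K)
  have hcosp : 0 < Real.cos φ := by
    rw [abs_lt] at hφ
    exact Real.cos_pos_of_mem_Ioo ⟨hφ.1, hφ.2⟩
  -- the pointwise bound
  have hpt : ∀ χ ∈ Y, ‖Lam D χ 0 s / ((cw K : ℂ) * ((dN K f : ℝ) : ℂ) ^ s *
      gS K χ.S χ.ν s)‖ ^ 2 ≤ (Real.exp (n / 2) / c) ^ 2 * ((1 + |s.im|) ^ (2 * G) *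
        (((cw K)⁻¹) ^ 2 * dN K f ^ (-(2 * s.re)))) * ‖Lam D χ φ s‖ ^ 2 := by
    intro χ hχ
    have hL := rot hPH hf D χ hφ hs0 hs1 hφt
    have hg := hG K hK χ.S χ.ν (hY χ hχ) s hre1 hre2
    rw [hK] at hL
    obtain ⟨E, hE⟩ : ∃ E : ℝ, E = Real.exp (-(Real.pi * n * |s.im| / 4)) := ⟨_, rfl⟩
    have hE0 : 0 < E := by rw [hE]; positivity
    rw [← hE] at hL hg
    have hgp : 0 < c * (1 + |s.im|) ^ (-G) * E := by positivity
    rw [norm_div, norm_mul, norm_mul, Complex.norm_real, Real.norm_of_nonneg hcw.le,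
      Complex.norm_cpow_eq_rpow_re_of_pos hdN0]
    have hden : 0 < cw K * dN K f ^ s.re * (c * (1 + |s.im|) ^ (-G) * E) := by positivity
    have h1 : ‖Lam D χ 0 s‖ / (cw K * dN K f ^ s.re * ‖gS K χ.S χ.ν s‖) ≤
        (Real.exp (n / 2) * E * ‖Lam D χ φ s‖) /
          (cw K * dN K f ^ s.re * (c * (1 + |s.im|) ^ (-G) * E)) := by
      gcongr
    have h2 : (Real.exp (n / 2) * E * ‖Lam D χ φ s‖) /
          (cw K * dN K f ^ s.re * (c * (1 + |s.im|) ^ (-G) * E)) =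
        (Real.exp (n / 2) / c) * ((1 + |s.im|) ^ G * ((cw K)⁻¹ * dN K f ^ (-s.re))) *
          ‖Lam D χ φ s‖ := by
      rw [Real.rpow_neg h1t.le, Real.rpow_neg hdN0.le]
      have e1 : (1 + |s.im|) ^ G ≠ 0 := (Real.rpow_pos_of_pos h1t _).ne'
      have e2 : dN K f ^ s.re ≠ 0 := (Real.rpow_pos_of_pos hdN0 _).ne'
      field_simp
    rw [h2] at h1
    have h3 : 0 ≤ ‖Lam D χ 0 s‖ / (cw K * dN K f ^ s.re * ‖gS K χ.S χ.ν s‖) := by positivity
    refine (pow_le_pow_left₀ h3 h1 2).trans (le_of_eq ?_)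
    rw [mul_pow, mul_pow, mul_pow, mul_pow, ← Real.rpow_natCast ((1 + |s.im|) ^ G),
      ← Real.rpow_mul h1t.le, ← Real.rpow_natCast (dN K f ^ (-s.re)), ← Real.rpow_mul hdN0.le]
    have e1 : G * ((2 : ℕ) : ℝ) = 2 * G := by push_cast; ring
    have e2 : -s.re * ((2 : ℕ) : ℝ) = -(2 * s.re) := by push_cast; ring
    rw [e1, e2]
  -- the sum over the types
  have hV : 0 ≤ (classNumber K : ℝ) * regulator K * Phi K f := by
    have := (regulator_pos K).le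
    positivity
  have hL2 : ∑ χ ∈ Y, ‖Lam D χ φ s‖ ^ 2 ≤ 2 ^ n * (((classNumber K : ℝ) * regulator K *
      Phi K f) * (C * ((Real.pi / 2) ^ B * (1 + |s.im|) ^ B) * (cw K * dN K f ^ (1 + κ)))) := by
    rw [← Finset.sum_fiberwise Y (fun χ => χ.S) (fun χ => ‖Lam D χ φ s‖ ^ 2)]
    have h1 : ∀ S : Finset (RP K), ∑ χ ∈ Y.filter (fun χ => χ.S = S), ‖Lam D χ φ s‖ ^ 2 ≤
        ((classNumber K : ℝ) * regulator K * Phi K f) *
          (C * ((Real.pi / 2) ^ B * (1 + |s.im|) ^ B) * (cw K * dN K f ^ (1 + κ))) := by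
      intro S
      refine one_type hAZ hBE hf D Y S hφ s ?_
      refine (hC K hK f hf D S φ hφ s hs).trans ?_
      have := cos_rpow (t := s.im) hB0 hcos
      gcongr
    refine (Finset.sum_le_sum (fun S _ => h1 S)).trans ?_
    rw [Finset.sum_const, nsmul_eq_mul, Finset.card_univ]
    have h2 := card_RP (K := K)
    rw [hK] at h2
    gcongr
  refine (Finset.sum_le_sum hpt).trans ?_
  rw [← Finset.mul_sum]
  refine (mul_le_mul_of_nonneg_left hL2 (by positivity)).trans ?_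
  -- the final computation
  have hd : dN K f ^ (-(2 * s.re)) * dN K f ^ (1 + κ) ≤ dN K f ^ (2 * κ) := by
    rw [← Real.rpow_add hdN0]
    exact Real.rpow_le_rpow_of_exponent_le hdN (by linarith)
  have hw : (cw K)⁻¹ ^ 2 * cw K ≤ 2 ^ n := by
    have h1 := inv_cw_le (K := K)
    rw [hK] at h1
    calc (cw K)⁻¹ ^ 2 * cw K = (cw K)⁻¹ := by field_simp
      _ ≤ _ := h1
  calc _ = (Real.exp (n / 2) / c) ^ 2 * (2 ^ n * (C * (Real.pi / 2) ^ B) *
        ((cw K)⁻¹ ^ 2 * cw K)) * ((1 + |s.im|) ^ (2 * G) * (1 + |s.im|) ^ B) *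
        (dN K f ^ (-(2 * s.re)) * dN K f ^ (1 + κ)) *
        ((classNumber K : ℝ) * regulator K * Phi K f) := by ring
    _ ≤ (Real.exp (n / 2) / c) ^ 2 * (2 ^ n * (C * (Real.pi / 2) ^ B) * 2 ^ n) *
        ((1 + |s.im|) ^ (2 * G) * (1 + |s.im|) ^ B) * dN K f ^ (2 * κ) *
        ((classNumber K : ℝ) * regulator K * Phi K f) := by gcongr
    _ = _ := by rw [Real.rpow_add h1t]

end Pool.Agent.H68.GLA
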